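import Pool.Agent.Run7.h578.LZ3

/-!
# MP_5a4862_nt: Li coefficients of zeta with a large base point, and zero-free half-planes

For a real base point `a` the Li coefficients of the Riemann zeta function are

`λ_n(a) = ∑_ρ Re (1 - ((ρ - a) / (ρ + a - 1))^n)`,

the sum over the nontrivial zeros with multiplicity (`a = 1` are the coefficients of Keiper and Li; it is known that
for any fixed `a > 1/2` the Riemann hypothesis holds if and only if all of them are nonnegative).

Unconditionally, for every `κ < 2` all `λ_n(a)` with `n ≤ κ a log a` are positive, and at least `c n a log a`, as soon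
as `a` is large. The constant `2` can be improved, if only for a sequence of base points tending to infinity and
with `λ_n(a) ≥ 0`, if and only if zeta has a zero-free half-plane `Re s > θ`, `θ < 1`. If zeta has no zeros with
`Re s > 1/2 + d` then `κ < 1/(2d) + 2d` is admissible; if it has a zero with `Re s > 1/2 + 1/κ`, then for ALL large `a`
some coefficient with `n ≤ κ a log a` is negative. All `κ` are admissible if and only if the Riemann hypothesis holds.

Proof. The abstract argument is in the starting modules `Pool.Agent.N831.LI`. A zero at distance `x` from the line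
contributes at most `exp(2 n a x / γ²)`-fold, `γ ≥ a`, that is `a^(2 κ x)`, and by the density theorem of Carlson
(starting modules `Pool.Agent.W190`) there are at most `T^(1 - 4x² + ε)` such zeros, while the zeros with
`|γ|` about `n a` contribute at least `c n a log a`. The converse: averages of the coefficients over `n` with the
coefficients of a polynomial with nonnegative coefficients, which is large at the zero with the largest real part.
-/

set_option autoImplicit false

open Filter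

namespace Pool.Agent.Results.MP_5a4862_nt.LiBasePoint

/-- The nontrivial zeros of the zeta function. -/
def NontrivialZeros : Set ℂ := {ρ : ℂ | riemannZeta ρ = 0 ∧ 0 < ρ.re ∧ ρ.re < 1}

/-- The term of the zero `ρ` in the Li coefficient with base point `a`, with the multiplicity of `ρ`. -/
noncomputable def term (a : ℝ) (n : ℕ) (ρ : ℂ) : ℝ :=
  (analyticOrderNatAt riemannZeta ρ : ℝ) * (1 - ((ρ - a) / (ρ + a - 1)) ^ n).re

/-- The Li coefficient with base point `a`; `a = 1` is the usual choice. -/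
noncomputable def li (a : ℝ) (n : ℕ) : ℝ := ∑' ρ : NontrivialZeros, term a n ρ

/-- The coefficients with `n ≤ κ a log a` are at least `c n a log a`, for all large `a`. -/
def Large (κ : ℝ) : Prop := ∃ c : ℝ, 0 < c ∧ ∀ᶠ a : ℝ in atTop, ∀ n : ℕ, 1 ≤ n →
  (n : ℝ) ≤ κ * a * Real.log a → c * n * a * Real.log a ≤ li a n

/-- The coefficients with `n ≤ κ a log a` are nonnegative, for arbitrarily large `a`. -/
def SometimesNonneg (κ : ℝ) : Prop := ∃ᶠ a : ℝ in atTop, ∀ n : ℕ, 1 ≤ n →
  (n : ℝ) ≤ κ * a * Real.log a → 0 ≤ li a n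

/-- Zeta has no zeros with `Re s > θ`. -/
def ZeroFree (θ : ℝ) : Prop := ∀ s : ℂ, θ < s.re → riemannZeta s ≠ 0

/-- **Main theorem.** -/
theorem result :
    (∀ a : ℝ, 3 / 2 ≤ a → ∀ n : ℕ, Summable fun ρ : NontrivialZeros => term a n ρ) ∧
      (∀ κ : ℝ, κ < 2 → Large κ) ∧
      (∀ d : ℝ, 0 < d → d < 1 / 2 → ZeroFree (1 / 2 + d) → ∀ κ : ℝ, κ < 1 / (2 * d) + 2 * d → Large κ) ∧
      (∀ (κ : ℝ) (s : ℂ), 0 < κ → riemannZeta s = 0 → 1 / 2 + 1 / κ < s.re →
        ∀ᶠ a : ℝ in atTop, ∃ n : ℕ, 1 ≤ n ∧ (n : ℝ) ≤ κ * a * Real.log a ∧ li a n < 0) ∧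
      ((∃ κ : ℝ, 2 < κ ∧ SometimesNonneg κ) ↔ ∃ θ : ℝ, θ < 1 ∧ ZeroFree θ) ∧
      ((∃ κ : ℝ, 2 < κ ∧ Large κ) ↔ ∃ θ : ℝ, θ < 1 ∧ ZeroFree θ) ∧
      (RiemannHypothesis ↔ ∀ κ : ℝ, 0 < κ → SometimesNonneg κ) ∧
      (RiemannHypothesis ↔ ∀ κ : ℝ, Large κ) := by
  refine ⟨fun a ha n => Run7.h578.LZ.summable_term ha n, fun κ hκ => Run7.h578.LZ.main1 hκ,
    fun d h1 h2 h3 κ hκ => Run7.h578.LZ.quasi h1 h2.le (Run7.h578.LZ.strip_of h3) hκ,
    fun κ s hκ hs hre => Run7.h578.LZ.neg hκ hs hre, ⟨Run7.h578.LZ.main_half', fun h => ?_⟩,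
    ⟨fun ⟨κ, h1, h2⟩ => Run7.h578.LZ.main_half' ⟨κ, h1, Run7.h578.LZ.large_some h2⟩, Run7.h578.LZ.main_half⟩,
    ⟨fun h κ _ => Run7.h578.LZ.large_some (Run7.h578.LZ.rh1 h κ), Run7.h578.LZ.rh2⟩,
    ⟨Run7.h578.LZ.rh1, fun h => Run7.h578.LZ.rh2 fun κ _ => Run7.h578.LZ.large_some (h κ)⟩⟩
  obtain ⟨κ, h1, h2⟩ := Run7.h578.LZ.main_half h
  exact ⟨κ, h1, Run7.h578.LZ.large_some h2⟩

end Pool.Agent.Results.MP_5a4862_nt.LiBasePoint
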