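import Mathlib
import Pool.Agent.Run7.h508.Pt.Fin

/-!
# Short partial sums of the zeta function and zero-free half-planes

Turán (1948): if the partial sums `U_N(s) = ∑ n ^ (-s)`, `n ≤ N`, have no zeros in slightly smaller
half-planes than `Re s > 1` then the Riemann hypothesis (or a zero-free half-plane) follows; but by
Montgomery (1983) there are always zeros with `Re s > 1 + c log log N / log N`, at astronomic heights. In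
polynomial ranges of heights the idea gives a criterion. Consider more generally all sums
`F(s) = ∑ b(n) n ^ (-s)`, `n ≤ N`, whose coefficients are complex numbers of bounded variation
(`IsTruncation`), for instance `b(n) = 1`, or `(1 - n / N) ^ k`, or `w(n / N)` for a function `w` on
`[0, 1]` with `w(0) = 1` whose total variation on `[0, x]` is at most `C x ^ δ`.

(1) Unconditionally: let `0 < a < A`. Near the line `Re s = 1` the zeros of zeta and those of `F` of height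
between `N ^ a` and `N ^ A` accompany each other: for a constant `c > 0` and all `ε > 0` each zero of one
of the functions with `Re s ≥ 1 - c` and sufficiently large height has a zero `s'` of the other function
with `Re s' > Re s - ε` at bounded distance. Here `A` may be large: the sums may be as short as any
power of the height.

(2) Zeta has a zero-free half-plane `Re s ≥ σ₀`, `σ₀ < 1`, if and only if for some `0 < a < A` there is a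
`σ₁ < 1` such that the partial sums `U_N` have no zeros with `Re s ≥ σ₁` and `N ^ a ≤ |Im s| ≤ N ^ A`, `N`
large; and then the same is true for all `0 < a < A`, and uniformly for all truncations.

(3) It is enough that for each large `t` one single truncation, of some length between two fixed
powers of `t`, has no zeros with `Re s ≥ σ₁` and `|Im s - t| ≤ 10`.
-/

namespace Pool.Agent.Results.MP_5a4862_nt.ShortPartialSums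

/-- The coefficients `b(n)`, `n ≤ N`, are a truncation (of bounded variation): `b(1)` is close to `1`, and
the total variation of `b` from `1` to `m + 1` is at most `C (m / N) ^ δ`, for all `m ≤ N`. -/
def IsTruncation (C δ : ℝ) (N : ℕ) (b : ℕ → ℂ) : Prop :=
  (∀ n, N < n → b n = 0) ∧ ‖b 1 - 1‖ ≤ C * (N : ℝ) ^ (-δ) ∧
    ∀ m, 1 ≤ m → m ≤ N → ∑ n ∈ Finset.Icc 1 m, ‖b n - b (n + 1)‖ ≤ C * ((m : ℝ) / N) ^ δ

/-- The truncated sum. -/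
noncomputable def F (b : ℕ → ℂ) (N : ℕ) (s : ℂ) : ℂ := ∑ n ∈ Finset.Icc 1 N, b n * (n : ℂ) ^ (-s)

/-- The partial sum of the series of zeta. -/
noncomputable def U (N : ℕ) (s : ℂ) : ℂ := ∑ n ∈ Finset.Icc 1 N, (n : ℂ) ^ (-s)

/-- Zeta has a zero-free half-plane. -/
def ZeroFreeHalfPlane : Prop :=
  ∃ σ₀ : ℝ, 1 / 2 < σ₀ ∧ σ₀ < 1 ∧ ∀ s : ℂ, σ₀ ≤ s.re → riemannZeta s ≠ 0

lemma sum_Icc {M : Type*} [AddCommMonoid M] (f : ℕ → M) (m : ℕ) :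
    ∑ n ∈ Finset.Icc 1 m, f n = ∑ n ∈ Finset.range m, f (n + 1) := by
  induction m with
  | zero => simp
  | succ m ih => rw [Finset.sum_Icc_succ_top (by omega), ih, Finset.sum_range_succ]

lemma isTruncation_iff {C δ : ℝ} {N : ℕ} {b : ℕ → ℂ} :
    IsTruncation C δ N b ↔ Pool.Agent.Run7.h508.Pt.IsTr C δ N b := by
  constructor
  · rintro ⟨h1, h2, h3⟩
    refine ⟨h1, h2, fun m hm hmN => ?_⟩
    have h4 := h3 m hm hmN
    rw [sum_Icc] at h4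
    exact h4
  · rintro ⟨h1, h2, h3⟩
    refine ⟨h1, h2, fun m hm hmN => ?_⟩
    rw [sum_Icc]
    exact h3 m hm hmN

lemma F_eq (b : ℕ → ℂ) (N : ℕ) (s : ℂ) : F b N s = Pool.Agent.Run7.h508.Pt.TS b N s := by
  unfold F
  rw [sum_Icc]
  rfl

lemma U_eq (N : ℕ) (s : ℂ) : U N s =
    Pool.Agent.Run7.h508.Pt.TS (fun n => if n ≤ N then 1 else 0) N s := by
  unfold U
  rw [sum_Icc]
  refine Finset.sum_congr rfl fun n hn => ?_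
  rw [Finset.mem_range] at hn
  dsimp only
  rw [if_pos (by omega), one_mul]

theorem result :
    -- (1)
    (∀ a A C δ : ℝ, 0 < a → a < A → 0 < C → 0 < δ → ∃ c : ℝ, 0 < c ∧ ∀ ε : ℝ, 0 < ε → ∃ T : ℝ,
      ∀ (N : ℕ) (b : ℕ → ℂ), 1 ≤ N → IsTruncation C δ N b → ∀ s : ℂ, 1 - c ≤ s.re → T ≤ s.im →
        (N : ℝ) ^ a ≤ s.im → s.im ≤ (N : ℝ) ^ A →
        (riemannZeta s = 0 → ∃ s' : ℂ, F b N s' = 0 ∧ s.re - ε < s'.re ∧ |s'.im - s.im| ≤ 10) ∧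
        (F b N s = 0 → ∃ s' : ℂ, riemannZeta s' = 0 ∧ s.re - ε < s'.re ∧ |s'.im - s.im| ≤ 10)) ∧
    -- (2)
    (ZeroFreeHalfPlane ↔ ∃ a A : ℝ, 0 < a ∧ a < A ∧ ∃ (σ₁ : ℝ) (N₀ : ℕ), σ₁ < 1 ∧
      ∀ N : ℕ, N₀ ≤ N → ∀ s : ℂ, σ₁ ≤ s.re → (N : ℝ) ^ a ≤ |s.im| → |s.im| ≤ (N : ℝ) ^ A →
        U N s ≠ 0) ∧
    (ZeroFreeHalfPlane ↔ ∀ a A C δ : ℝ, 0 < a → a < A → 0 < C → 0 < δ →
      ∃ (σ₁ : ℝ) (N₀ : ℕ), σ₁ < 1 ∧ ∀ N : ℕ, N₀ ≤ N → ∀ b : ℕ → ℂ, IsTruncation C δ N b →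
        ∀ s : ℂ, σ₁ ≤ s.re → (N : ℝ) ^ a ≤ |s.im| → |s.im| ≤ (N : ℝ) ^ A → F b N s ≠ 0) ∧
    -- (3)
    (ZeroFreeHalfPlane ↔ ∃ a A C δ : ℝ, 0 < a ∧ 0 < A ∧ 0 < C ∧ 0 < δ ∧ ∃ σ₁ T : ℝ, σ₁ < 1 ∧
      ∀ t : ℝ, T ≤ t → ∃ (N : ℕ) (b : ℕ → ℂ), 1 ≤ N ∧ IsTruncation C δ N b ∧
        (N : ℝ) ^ a ≤ t ∧ t ≤ (N : ℝ) ^ A ∧
        ∀ s : ℂ, σ₁ ≤ s.re → |s.im - t| ≤ 10 → F b N s ≠ 0) := by
  -- the implications
  have hall : ZeroFreeHalfPlane → ∀ a A C δ : ℝ, 0 < a → a < A → 0 < C → 0 < δ →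
      ∃ (σ₁ : ℝ) (N₀ : ℕ), σ₁ < 1 ∧ ∀ N : ℕ, N₀ ≤ N → ∀ b : ℕ → ℂ, IsTruncation C δ N b →
        ∀ s : ℂ, σ₁ ≤ s.re → (N : ℝ) ^ a ≤ |s.im| → |s.im| ≤ (N : ℝ) ^ A → F b N s ≠ 0 := by
    intro h a A C δ ha haA hC hδ
    obtain ⟨σ₁, N₀, h1, h2⟩ := Pool.Agent.Run7.h508.Pt.unif_of_half h a A C δ ha (by linarith) hC hδ
    refine ⟨σ₁, N₀, h1, fun N hN b hb s hs h3 h4 => ?_⟩
    rw [F_eq]
    exact h2 N hN b (isTruncation_iff.1 hb) s hs h3 h4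
  have hU : (∀ a A C δ : ℝ, 0 < a → a < A → 0 < C → 0 < δ →
      ∃ (σ₁ : ℝ) (N₀ : ℕ), σ₁ < 1 ∧ ∀ N : ℕ, N₀ ≤ N → ∀ b : ℕ → ℂ, IsTruncation C δ N b →
        ∀ s : ℂ, σ₁ ≤ s.re → (N : ℝ) ^ a ≤ |s.im| → |s.im| ≤ (N : ℝ) ^ A → F b N s ≠ 0) →
      ∃ a A : ℝ, 0 < a ∧ a < A ∧ ∃ (σ₁ : ℝ) (N₀ : ℕ), σ₁ < 1 ∧
      ∀ N : ℕ, N₀ ≤ N → ∀ s : ℂ, σ₁ ≤ s.re → (N : ℝ) ^ a ≤ |s.im| → |s.im| ≤ (N : ℝ) ^ A →
        U N s ≠ 0 := by
    intro h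
    obtain ⟨σ₁, N₀, h1, h2⟩ := h 1 2 1 1 (by norm_num) (by norm_num) (by norm_num) (by norm_num)
    refine ⟨1, 2, by norm_num, by norm_num, σ₁, max N₀ 1, h1, fun N hN s hs h3 h4 => ?_⟩
    rw [U_eq, ← F_eq]
    exact h2 N ((le_max_left _ _).trans hN) _ (isTruncation_iff.2
      (Pool.Agent.Run7.h508.Pt.isTr_one N ((le_max_right _ _).trans hN))) s hs h3 h4
  have hloc : (∃ a A : ℝ, 0 < a ∧ a < A ∧ ∃ (σ₁ : ℝ) (N₀ : ℕ), σ₁ < 1 ∧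
      ∀ N : ℕ, N₀ ≤ N → ∀ s : ℂ, σ₁ ≤ s.re → (N : ℝ) ^ a ≤ |s.im| → |s.im| ≤ (N : ℝ) ^ A →
        U N s ≠ 0) → ∃ a A C δ : ℝ, 0 < a ∧ 0 < A ∧ 0 < C ∧ 0 < δ ∧ ∃ σ₁ T : ℝ, σ₁ < 1 ∧
      ∀ t : ℝ, T ≤ t → ∃ (N : ℕ) (b : ℕ → ℂ), 1 ≤ N ∧ IsTruncation C δ N b ∧
        (N : ℝ) ^ a ≤ t ∧ t ≤ (N : ℝ) ^ A ∧
        ∀ s : ℂ, σ₁ ≤ s.re → |s.im - t| ≤ 10 → F b N s ≠ 0 := by
    rintro ⟨a, A, ha, haA, σ₁, N₀, hσ, h⟩
    obtain ⟨T, hT⟩ := Pool.Agent.Run7.h508.Pt.window ha haA N₀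
    refine ⟨a, A, 1, 1, ha, by linarith, by norm_num, by norm_num, σ₁, T, hσ, fun t ht => ?_⟩
    obtain ⟨N, hN0, hN1, h1, h2⟩ := hT t ht
    refine ⟨N, fun n => if n ≤ N then 1 else 0, hN1, isTruncation_iff.2
      (Pool.Agent.Run7.h508.Pt.isTr_one N hN1), by linarith, by linarith, fun s hs hst => ?_⟩
    rw [F_eq, ← U_eq]
    have hpos : 0 < (N : ℝ) ^ a := Real.rpow_pos_of_pos (by exact_mod_cast hN1) a
    rw [abs_le] at hst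
    have h3 : 0 ≤ s.im := by linarith
    refine h N hN0 s hs ?_ ?_ <;> rw [abs_of_nonneg h3] <;> linarith
  have hback : (∃ a A C δ : ℝ, 0 < a ∧ 0 < A ∧ 0 < C ∧ 0 < δ ∧ ∃ σ₁ T : ℝ, σ₁ < 1 ∧
      ∀ t : ℝ, T ≤ t → ∃ (N : ℕ) (b : ℕ → ℂ), 1 ≤ N ∧ IsTruncation C δ N b ∧
        (N : ℝ) ^ a ≤ t ∧ t ≤ (N : ℝ) ^ A ∧
        ∀ s : ℂ, σ₁ ≤ s.re → |s.im - t| ≤ 10 → F b N s ≠ 0) → ZeroFreeHalfPlane := by
    rintro ⟨a, A, C, δ, ha, hA, hC, hδ, σ₁, T, hσ, h⟩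
    refine Pool.Agent.Run7.h508.Pt.half_of_local (a := a) (A := A) (C := C) (δ := δ) (T := T) ha hA hC
      hδ hσ fun t ht => ?_
    obtain ⟨N, b, h1, h2, h3, h4, h5⟩ := h t ht
    refine ⟨N, b, h1, isTruncation_iff.1 h2, h3, h4, fun s hs hst => ?_⟩
    rw [← F_eq]
    exact h5 s hs hst
  refine ⟨?_, ⟨fun h => hU (hall h), fun h => hback (hloc h)⟩, ⟨hall, fun h => hback (hloc (hU h))⟩,
    ⟨fun h => hloc (hU (hall h)), hback⟩⟩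
  intro a A C δ ha haA hC hδ
  obtain ⟨c, hc, htr⟩ := Pool.Agent.Run7.h508.Pt.transfer a A C δ ha (by linarith) hC hδ
  refine ⟨c, hc, fun ε hε => ?_⟩
  obtain ⟨T, hT⟩ := htr ε hε
  refine ⟨T, fun N b hN hb s h1 h2 h3 h4 => ⟨fun h0 => ?_, fun h0 => ?_⟩⟩
  · obtain ⟨s', hs', h5⟩ := (hT N b hN (isTruncation_iff.1 hb)).1 s h0 h1 h2 h3 h4
    exact ⟨s', by rw [F_eq]; exact hs', h5⟩
  · exact (hT N b hN (isTruncation_iff.1 hb)).2 s (by rw [← F_eq]; exact h0) h1 h2 h3 h4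

end Pool.Agent.Results.MP_5a4862_nt.ShortPartialSums
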