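import Mathlib
import Pool.Agent.Run7.h508.Sp.Fin2
import Pool.Agent.Run7.h508.Sp.Fin3

/-!
# Speiser's theorem for half-planes, for all derivatives of the zeta function and their `a`-points

Speiser: the Riemann hypothesis holds if and only if `ζ'` has no zeros with `0 < Re s < 1/2`.  Here:
for each line and each derivative, more generally for `P(d/ds) ζ`, `P` any nonzero polynomial
with complex coefficients, and also for the solutions of `P(d/ds) ζ (s) = f(s)` where `f` is a
constant, a Dirichlet polynomial, or any function of size `|t| ^ o(1)` in vertical strips.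

(1) Let `P, Q` be nonzero polynomials, `f, g` small functions and `ε > 0`.  Each zero `s` of
`P(d/ds) ζ - f` of sufficiently large height with `Re s ≤ 1/2 - ε` is accompanied by a zero `s'` of
`Q(d/ds) ζ - g` with `-ε < Re s' < Re s + ε` at bounded distance.

(2) zeta has a zero-free half-plane `Re s ≥ σ₀`, `σ₀ < 1`, if and only if for one (and then for each)
pair `P, f` the zeros of `P(d/ds) ζ - f` in some strip `-A < Re s < δ`, `δ > 0`, have bounded heights.
For `f = 0` this means that there are finitely many of them.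

Proof.  If `g` is one of these functions and has no zeros in a large box to the left of the line
`Re s = a` around height `t`, then `g' / g = - log t (1 + o(1))` there (Borel-Caratheodory and three
circles), so `g' - α g` has no zeros in a smaller box, and `|g|` exceeds a positive power of `t`, so
`g - f` has none either.  Conversely if `h = g' - α g` has no zeros in a
large box then the same holds for `h`, the size of `h` to the right of the box is bounded by its size
on the line `Re s = a`, since `a < 1/2` and `h` has size `t ^ o(1)` to the right of `1` (maximum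
principle), and `g(s)`, an integral of `h` along the horizontal line up to a term of size `t ^ o(1)`, is
`- h(s) / log t (1 + o(1))`.
-/

set_option autoImplicit false

namespace Pool.Agent.Results.MP_5a4862_nt.SpeiserHalfPlanes

/-- `P(d/ds) ζ (s) = ∑ a_j ζ^(j) (s)` for the polynomial `P = ∑ a_j X^j`; for instance `ζ^(k)` for
`P = X^k`. -/
noncomputable def applyTo (P : Polynomial ℂ) (s : ℂ) : ℂ :=
  P.sum fun j a => a * iteratedDeriv j riemannZeta s

/-- `f` is analytic off the real axis, and `|f(s)| ≤ |Im s| ^ ε` in each vertical strip, for each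
`ε > 0` and all sufficiently large `|Im s|`.  Constants and Dirichlet polynomials are examples. -/
def IsSmall (f : ℂ → ℂ) : Prop :=
  (∀ s : ℂ, s.im ≠ 0 → DifferentiableAt ℂ f s) ∧
    ∀ R ε : ℝ, 0 < ε → ∃ T : ℝ, ∀ s : ℂ, |s.re| ≤ R → T ≤ |s.im| → ‖f s‖ ≤ |s.im| ^ ε

theorem neg_small {f : ℂ → ℂ} (hf : IsSmall f) :
    Pool.Agent.Run7.h508.Sp.IsSmall fun s => - f s := by
  refine ⟨fun s hs => (hf.1 s hs).neg, fun R ε hε => ?_⟩
  obtain ⟨T, hT⟩ := hf.2 R ε hε
  refine ⟨T, fun s h1 h2 => ?_⟩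
  rw [norm_neg]
  exact hT s h1 h2

/-- (1) Solutions of `P(d/ds) ζ = f` to the left of `Re s = 1/2 - ε` are accompanied by solutions of
`Q(d/ds) ζ = g`.  (2) A zero-free half-plane of zeta is equivalent to a strip `-A < Re s < δ` in which
the solutions of `P(d/ds) ζ = f` have bounded heights, for each nonzero polynomial `P`, each `A > 0` and
each small `f`.  (3) For `f = 0`: in which `P(d/ds) ζ` has finitely many zeros. -/
theorem result :
    (∀ P Q : Polynomial ℂ, P ≠ 0 → Q ≠ 0 → ∀ f g : ℂ → ℂ, IsSmall f → IsSmall g →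
      ∀ A ε : ℝ, 0 < ε → ∃ K T : ℝ, ∀ s : ℂ,
      applyTo P s = f s → -A ≤ s.re → s.re ≤ 1 / 2 - ε → T ≤ |s.im| →
        ∃ s' : ℂ, applyTo Q s' = g s' ∧ -ε < s'.re ∧ s'.re < s.re + ε ∧ |s'.im - s.im| ≤ K) ∧
    (∀ P : Polynomial ℂ, P ≠ 0 → ∀ f : ℂ → ℂ, IsSmall f → ∀ A : ℝ, 0 < A →
      ((∃ σ₀ : ℝ, 1 / 2 < σ₀ ∧ σ₀ < 1 ∧ ∀ s : ℂ, σ₀ ≤ s.re → riemannZeta s ≠ 0) ↔
        ∃ δ T : ℝ, 0 < δ ∧ ∀ s : ℂ, -A < s.re → s.re < δ → applyTo P s = f s → |s.im| < T)) ∧
    (∀ P : Polynomial ℂ, P ≠ 0 → ∀ A : ℝ, 0 < A →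
      ((∃ σ₀ : ℝ, 1 / 2 < σ₀ ∧ σ₀ < 1 ∧ ∀ s : ℂ, σ₀ ≤ s.re → riemannZeta s ≠ 0) ↔
        ∃ δ : ℝ, 0 < δ ∧ {s : ℂ | -A < s.re ∧ s.re < δ ∧ applyTo P s = 0}.Finite)) := by
  refine ⟨fun P Q hP hQ f g hf hg A ε hε => ?_, fun P hP f hf A hA => ?_,
    fun P hP A hA => Pool.Agent.Run7.h508.Sp.main2 P hP A hA⟩
  · obtain ⟨K, T, h⟩ := Pool.Agent.Run7.h508.Sp.main1' P Q hP hQ _ _ (neg_small hf) (neg_small hg)
      A ε hε
    refine ⟨K, T, fun s h1 h2 h3 h4 => ?_⟩
    obtain ⟨s', a1, a2⟩ := h s (add_neg_eq_zero.2 h1) h2 h3 h4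
    exact ⟨s', add_neg_eq_zero.1 a1, a2⟩
  · rw [Pool.Agent.Run7.h508.Sp.main2' P hP _ (neg_small hf) A hA]
    constructor
    · rintro ⟨δ, T, h1, h2⟩
      refine ⟨δ, T, h1, fun s a1 a2 a3 => ?_⟩
      by_contra hc
      exact h2 s a1 a2 (not_lt.1 hc) (add_neg_eq_zero.2 a3)
    · rintro ⟨δ, T, h1, h2⟩
      exact ⟨δ, T, h1, fun s a1 a2 a3 a4 => absurd (h2 s a1 a2 (add_neg_eq_zero.1 a4)) (not_lt.2 a3)⟩

end Pool.Agent.Results.MP_5a4862_nt.SpeiserHalfPlanes
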