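import Pool.Agent.Run7.h517.WS7
import Pool.Agent.Run7.h833.CAz.P8

set_option autoImplicit false

/-!
# MP_5a4862_nt: the real parts of the zeros of `ζ` are the growth rates of the min-max values of Weil's form

For `a > 0` let `W a` be Weil's quadratic form on the functions supported in `[-a, a]`, written through the
pole, the archimedean place and the prime powers up to `exp (2 a)`; no zero of `ζ` enters.  Let `lam k a` be
its `k`-th min-max value relative to the logarithmic norm of its form domain.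

There are at least `k` distinct zeros with `Re ρ > 1/2 + h` if and only if `lam k a ≤ -exp ((2 h + ε) a)` for an
`ε > 0` and all large `a`; otherwise `lam k a ≥ -C (1 + a)² exp (2 h a)` for all `a > 0`.  Hence
`log (-lam k a) / (2 a)` converges to `θ k - 1/2`, where `θ k` is the `k`-th largest real part of a zero.
In particular `ζ` has a zero-free half-plane `Re s ≥ σ₀`, `σ₀ < 1`, if and only if `lam 1 a ≥ -exp ((1 - δ) a)` for
a `δ > 0` and arbitrarily large `a`; unconditionally `lam 1 a ≥ -C (1 + a)² exp a`.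
-/

namespace Pool.Agent.Results.MP_5a4862_nt.WeilFormSize

open Complex MeasureTheory Filter Topology

/-- The Mellin transform of `f` in the logarithmic variable, centred at `1/2`. -/
noncomputable def M (f : ℝ → ℂ) (s : ℂ) : ℂ := ∫ x : ℝ, f x * cexp ((s - 1 / 2) * x)

/-- The form domain: `f` is square integrable, vanishes off `[-a, a]`, and its transform on the
critical line is square integrable against the logarithmic weight. -/
def InDom (a : ℝ) (f : ℝ → ℂ) : Prop := MemLp f 2 volume ∧ (∀ x : ℝ, a < |x| → f x = 0) ∧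
  Integrable fun t : ℝ => Real.log (3 + |t|) * ‖M f (1 / 2 + t * I)‖ ^ 2

/-- The logarithmic norm of the form domain. -/
noncomputable def LogNorm (f : ℝ → ℂ) : ℝ := ∫ t : ℝ, Real.log (3 + |t|) * ‖M f (1 / 2 + t * I)‖ ^ 2

/-- Weil's quadratic form for functions supported in `[-a, a]`: the pole, the archimedean place and the
prime powers `n ≤ exp (2 a)`. -/
noncomputable def W (a : ℝ) (f : ℝ → ℂ) : ℝ :=
  2 * (M f 1 * (starRingEnd ℂ) (M f 0)).re +
    1 / (2 * Real.pi) * (∫ t : ℝ, ((digamma ((1 / 2 + t * I) / 2)).re - Real.log Real.pi) *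
      ‖M f (1 / 2 + t * I)‖ ^ 2) -
    2 * (∑ n ∈ Finset.Icc 1 ⌊Real.exp (2 * a)⌋₊, ArithmeticFunction.vonMangoldt n / Real.sqrt n *
      ∫ x : ℝ, f (x + Real.log n) * (starRingEnd ℂ) (f x)).re

/-- The linear combination of `f 0, …, f (k - 1)` with the coefficients `c`. -/
noncomputable def comb {k : ℕ} (c : Fin k → ℂ) (f : Fin k → ℝ → ℂ) : ℝ → ℂ := fun x => ∑ i, c i * f i x

/-- The `k`-th min-max value of `W a / LogNorm`: the infimum of the numbers `r` such that `W a ≤ r * LogNorm` on a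
`k`-dimensional space of functions of the form domain. -/
noncomputable def lam (k : ℕ) (a : ℝ) : ℝ := sInf {r : ℝ | ∃ f : Fin k → ℝ → ℂ, (∀ i, InDom a (f i)) ∧
  ∀ c : Fin k → ℂ, c ≠ 0 → 0 < LogNorm (comb c f) ∧ W a (comb c f) ≤ r * LogNorm (comb c f)}

/-- There are at least `k` distinct zeros of `ζ` with real part greater than `σ`. -/
def Zeros (k : ℕ) (σ : ℝ) : Prop :=
  ∃ w : Fin k → ℂ, Function.Injective w ∧ ∀ i, riemannZeta (w i) = 0 ∧ σ < (w i).re

/-- The `k`-th largest real part of a zero: the supremum of the `σ ≥ 0` to the right of which there are at least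
`k` distinct zeros. -/
noncomputable def theta (k : ℕ) : ℝ := sSup {σ : ℝ | 0 ≤ σ ∧ Zeros k σ}

/-- Q1: there is a zero-free half-plane. -/
def HalfPlane : Prop := ∃ σ₀ : ℝ, 1 / 2 < σ₀ ∧ σ₀ < 1 ∧ ∀ s : ℂ, σ₀ ≤ s.re → riemannZeta s ≠ 0

open Y23.G Y23.G.WS

lemma zeros_iff (k : ℕ) {σ : ℝ} (hσ : 0 ≤ σ) : Zeros k σ ↔ MZ (D := zd (L := CA.Z.zL)) k σ := by
  unfold Zeros MZ
  refine exists_congr fun w => and_congr_right fun _ => forall_congr' fun i => ?_
  have e : w i ∈ (zd (L := CA.Z.zL)).Zs ↔ CA.Z.xi (w i) = 0 := Iff.rfl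
  rw [e, CA.Z.xi_zero_iff]
  constructor
  · rintro ⟨h1, h2⟩
    refine ⟨⟨h1, lt_of_le_of_lt hσ h2, ?_⟩, h2⟩
    by_contra h3
    exact riemannZeta_ne_zero_of_one_le_re (not_lt.1 h3) h1
  · rintro ⟨⟨h1, _, _⟩, h2⟩
    exact ⟨h1, h2⟩

lemma theta_eq (k : ℕ) : theta k = th (D := zd (L := CA.Z.zL)) k := by
  unfold theta th
  congr 1
  ext σ
  exact and_congr_right fun h => zeros_iff k h

lemma logNorm_eq (f : ℝ → ℂ) : LogNorm f = LL f := by
  unfold LogNorm LL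
  refine integral_congr_ae (Eventually.of_forall fun t => ?_)
  have : M f (1 / 2 + t * I) = Y23.TT f (t * I) := CA.Z.M_line f t
  simp only [this]
  rfl

lemma dom_iff (a : ℝ) (f : ℝ → ℂ) : InDom a f ↔ Hd a f := CA.Z.inDom_iff a f

lemma W_QQ {a : ℝ} (ha : 0 < a) {f : ℝ → ℂ} (hf : Hd a f) : W a f = QQ (D := zd (L := CA.Z.zL)) f :=
  CA.Z.W_eq ha ((dom_iff a f).2 hf)

lemma lam_eq (k : ℕ) {a : ℝ} (ha : 0 < a) : lam k a = lm (D := zd (L := CA.Z.zL)) k a := by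
  unfold lam lm Le
  congr 1
  ext r
  simp only [Set.mem_ofPred_eq]
  refine exists_congr fun f => ?_
  rw [forall_congr' fun i => dom_iff a (f i)]
  refine and_congr_right fun hf => forall_congr' fun c => imp_congr_right fun _ => ?_
  have h1 : Hd a (comb c f) := (lc_Hd hf c).1
  rw [logNorm_eq, W_QQ ha h1]
  rfl

lemma rh_line : RiemannHypothesis ↔ ∀ ρ : Zt (D := zd (L := CA.Z.zL)), (ρ : ℂ).re = 1 / 2 := by
  rw [CA.Z.rh_iff]
  exact ⟨fun h ρ => h ρ ρ.2, fun h s hs => h ⟨s, hs⟩⟩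

lemma half_iff : HalfPlane ↔ ∃ δ : ℝ, 0 < δ ∧ ¬ MZ (D := zd (L := CA.Z.zL)) 1 (1 - δ) := by
  constructor
  · rintro ⟨σ, h1, h2, h3⟩
    refine ⟨1 - σ, by linarith, ?_⟩
    rw [sub_sub_cancel, ← zeros_iff 1 (by linarith)]
    rintro ⟨w, _, hw⟩
    exact h3 (w 0) (hw 0).2.le (hw 0).1
  · rintro ⟨δ0, h1, h2⟩
    set δ := min δ0 (1 / 4) with hδ
    have hδp : 0 < δ := lt_min h1 (by norm_num)
    have hδ4 : δ ≤ 1 / 4 := min_le_right _ _
    have hm : ¬ Zeros 1 (1 - δ) := by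
      rw [zeros_iff 1 (by linarith)]
      exact fun h => h2 (MZ.anti (D := zd (L := CA.Z.zL)) h (by linarith [min_le_left δ0 (1 / 4)]))
    refine ⟨1 - δ / 2, by linarith, by linarith, fun s hs h0 => hm ?_⟩
    exact ⟨fun _ => s, fun i j _ => Subsingleton.elim i j, fun _ => ⟨h0, by linarith⟩⟩

theorem result :
    (∃ C : ℝ, 0 < C ∧ ∀ (k : ℕ) (h : ℝ), 0 ≤ h → ¬ Zeros k (1 / 2 + h) →
      ∀ a : ℝ, 0 < a → -(C * (1 + a) ^ 2 * Real.exp (2 * h * a)) ≤ lam k a) ∧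
    (∀ (k : ℕ) (h : ℝ), 1 ≤ k → 0 ≤ h →
      (Zeros k (1 / 2 + h) ↔ ∃ ε A : ℝ, 0 < ε ∧ ∀ a : ℝ, A ≤ a → lam k a ≤ -Real.exp ((2 * h + ε) * a)) ∧
      (Zeros k (1 / 2 + h) ↔ ∃ ε : ℝ, 0 < ε ∧ ∀ A : ℝ, ∃ a : ℝ, A ≤ a ∧ lam k a ≤ -Real.exp ((2 * h + ε) * a))) ∧
    (∀ k : ℕ, 1 ≤ k → Zeros k (1 / 2) →
      Tendsto (fun a : ℝ => Real.log (-lam k a) / (2 * a)) atTop (𝓝 (theta k - 1 / 2))) ∧
    (∀ a : ℝ, 0 < a → IsGreatest {r : ℝ | ∀ f : ℝ → ℂ, InDom a f → r * LogNorm f ≤ W a f} (lam 1 a)) ∧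
    (RiemannHypothesis ↔ ∀ a : ℝ, 0 < a → 0 ≤ lam 1 a) ∧
    (∀ c : ℝ, c < 2 * Real.pi → ∃ A : ℝ, ∀ a : ℝ, A ≤ a → lam 1 a ≤ Real.exp (-(c * Real.exp (2 * a)))) ∧
    (¬ RiemannHypothesis ↔ ∃ ε A : ℝ, 0 < ε ∧ ∀ a : ℝ, A ≤ a → lam 1 a ≤ -Real.exp (ε * a)) ∧
    (∃ C : ℝ, 0 < C ∧ ∀ a : ℝ, 0 < a → -(C * (1 + a) ^ 2 * Real.exp a) ≤ lam 1 a) ∧
    (HalfPlane ↔ ∃ δ C : ℝ, 0 < δ ∧ ∀ a : ℝ, 0 < a → -(C * Real.exp ((1 - δ) * a)) ≤ lam 1 a) ∧
    (HalfPlane ↔ ∃ δ : ℝ, 0 < δ ∧ ∀ A : ℝ, ∃ a : ℝ, A ≤ a ∧ -Real.exp ((1 - δ) * a) ≤ lam 1 a) := by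
  let L : LFun := CA.Z.zL
  obtain ⟨C, hC, HC⟩ := lower (D := zd (L := L))
  have hlow : ∀ (k : ℕ) (h : ℝ), 0 ≤ h → ¬ Zeros k (1 / 2 + h) →
      ∀ a : ℝ, 0 < a → -(C * (1 + a) ^ 2 * Real.exp (2 * h * a)) ≤ lam k a := by
    intro k h hh hz a ha
    rw [zeros_iff k (by linarith)] at hz
    rw [lam_eq k ha]
    exact (HC k a h ha hh hz).2
  -- eventual statements may be read for positive `a`
  have hev : ∀ (k : ℕ) (g : ℝ → ℝ), (∃ A : ℝ, ∀ a : ℝ, A ≤ a → lam k a ≤ g a) ↔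
      ∃ A : ℝ, ∀ a : ℝ, A ≤ a → lm (D := zd (L := L)) k a ≤ g a := by
    intro k g
    constructor
    · rintro ⟨A, H⟩
      refine ⟨max A 1, fun a ha => ?_⟩
      rw [← lam_eq k (by linarith [le_max_right A 1])]
      exact H a ((le_max_left _ _).trans ha)
    · rintro ⟨A, H⟩
      refine ⟨max A 1, fun a ha => ?_⟩
      rw [lam_eq k (by linarith [le_max_right A 1])]
      exact H a ((le_max_left _ _).trans ha)
  have hfr : ∀ (k : ℕ) (P : ℝ → ℝ → Prop), (∀ A : ℝ, ∃ a : ℝ, A ≤ a ∧ P a (lam k a)) ↔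
      ∀ A : ℝ, ∃ a : ℝ, A ≤ a ∧ P a (lm (D := zd (L := L)) k a) := by
    intro k P
    constructor
    · intro H A
      obtain ⟨a, h1, h2⟩ := H (max A 1)
      refine ⟨a, (le_max_left _ _).trans h1, ?_⟩
      rwa [← lam_eq k (by linarith [le_max_right A 1])]
    · intro H A
      obtain ⟨a, h1, h2⟩ := H (max A 1)
      refine ⟨a, (le_max_left _ _).trans h1, ?_⟩
      rwa [lam_eq k (by linarith [le_max_right A 1])]
  have hcount : ∀ (k : ℕ) (h : ℝ), 1 ≤ k → 0 ≤ h →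
      (Zeros k (1 / 2 + h) ↔ ∃ ε A : ℝ, 0 < ε ∧ ∀ a : ℝ, A ≤ a → lam k a ≤ -Real.exp ((2 * h + ε) * a)) ∧
      (Zeros k (1 / 2 + h) ↔ ∃ ε : ℝ, 0 < ε ∧ ∀ A : ℝ, ∃ a : ℝ, A ≤ a ∧ lam k a ≤ -Real.exp ((2 * h + ε) * a)) := by
    intro k h hk hh
    obtain ⟨h1, h2⟩ := count (D := zd (L := L)) hk hh
    rw [zeros_iff k (by linarith)]
    constructor
    · rw [h1]
      refine exists_congr fun ε => ?_
      rw [exists_and_left, exists_and_left]
      exact and_congr_right fun _ => (hev k fun a => -Real.exp ((2 * h + ε) * a)).symm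
    · rw [h2]
      refine exists_congr fun ε => and_congr_right fun _ => ?_
      exact (hfr k fun a y => y ≤ -Real.exp ((2 * h + ε) * a)).symm
  have hrh1 : RiemannHypothesis ↔ ¬ Zeros 1 (1 / 2 + 0) := by
    rw [add_zero, rh_line, zeros_iff 1 (by norm_num)]
    constructor
    · rintro h ⟨w, _, hw⟩
      have h1 := h ⟨w 0, (hw 0).1⟩
      have h2 := (hw 0).2
      simp only at h1
      linarith
    · intro h ρ
      by_contra hne
      refine h ?_
      rcases lt_or_gt_of_ne hne with h1 | h1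
      · refine ⟨fun _ => ((rfZ ρ : Zt) : ℂ), fun i j _ => Subsingleton.elim i j, fun _ => ⟨(rfZ ρ).2, ?_⟩⟩
        rw [rfZ_val, Complex.sub_re, Complex.conj_re, Complex.one_re]
        linarith
      · exact ⟨fun _ => (ρ : ℂ), fun i j _ => Subsingleton.elim i j, fun _ => ⟨ρ.2, h1⟩⟩
  refine ⟨⟨C, hC, hlow⟩, hcount, fun k hk hz => ?_, fun a ha => ?_, ?_, fun c hc => ?_, ?_, ⟨C, hC, fun a ha => ?_⟩, ?_, ?_⟩
  · have h1 := rate (D := zd (L := L)) hk ((zeros_iff k (by norm_num)).1 hz)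
    rw [theta_eq]
    refine h1.congr' ?_
    filter_upwards [eventually_gt_atTop 0] with a ha
    rw [lam_eq k ha]
  · have h1 := lm_greatest (D := zd (L := L)) ha
    rw [lam_eq 1 ha]
    have e : {r : ℝ | ∀ f : ℝ → ℂ, InDom a f → r * LogNorm f ≤ W a f} =
        {r : ℝ | ∀ f : ℝ → ℂ, Hd a f → r * LL f ≤ QQ (D := zd (L := L)) f} := by
      ext r
      simp only [Set.mem_ofPred_eq]
      refine forall_congr' fun f => ?_
      rw [dom_iff]
      refine imp_congr_right fun hf => ?_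
      rw [logNorm_eq, W_QQ ha hf]
    rw [e]
    exact h1
  · rw [rh_line, rh_nonneg (D := zd (L := L))]
    exact forall_congr' fun a => imp_congr_right fun ha => by rw [lam_eq 1 ha]
  · obtain ⟨A, hA, H⟩ := small (L := L) (c := c) (by
      have : Y23.G.cc (L := L) = Real.pi := CA.Z.cc_eq
      rw [this]; exact hc)
    refine ⟨A, fun a ha => ?_⟩
    have h1 := H a ha
    have hm : (L.m : ℝ) = 1 := by
      show ((1 : ℕ) : ℝ) = 1
      norm_num
    rw [hm, div_one] at h1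
    rw [lam_eq 1 (by linarith)]
    exact h1
  · rw [hrh1, not_not, (hcount 1 0 le_rfl le_rfl).1]
    simp only [mul_zero, zero_add]
  · have h1 := hlow 1 (1 / 2) (by norm_num) (by
      rintro ⟨w, _, hw⟩
      refine riemannZeta_ne_zero_of_one_le_re ?_ (hw 0).1
      have := (hw 0).2
      linarith) a ha
    have e : 2 * (1 / 2 : ℝ) * a = a := by ring
    rwa [e] at h1
  · rw [half_iff, (half_plane (D := zd (L := L))).1]
    refine exists_congr fun δ => exists_congr fun C => and_congr_right fun _ => ?_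
    exact forall_congr' fun a => imp_congr_right fun ha => by rw [lam_eq 1 ha]
  · rw [half_iff, (half_plane (D := zd (L := L))).2]
    refine exists_congr fun δ => and_congr_right fun _ => ?_
    exact (hfr 1 fun a y => -Real.exp ((1 - δ) * a) ≤ y).symm

end Pool.Agent.Results.MP_5a4862_nt.WeilFormSize
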